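import Pool.Agent.Helper40.PR.Defs

/-!
# PR-TK6: locally parallel operators, operators with many eigenvectors
-/

set_option autoImplicit false

namespace PR

open ContinuousLinearMap

section lld

variable {X : Type*} [NormedAddCommGroup X] [NormedSpace ℂ X]
variable {Y : Type*} [NormedAddCommGroup Y] [NormedSpace ℂ Y]

theorem dep_pair {x y : Y} (h : ¬ LinearIndependent ℂ ![x, y]) (hx : x ≠ 0) :
    ∃ c : ℂ, y = c • x := by
  rw [LinearIndependent.pair_iff' hx] at h
  push Not at h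
  obtain ⟨c, hc⟩ := h
  exact ⟨c, hc.symm⟩

theorem coef_eq_of_indep (A B : X →L[ℂ] Y) (h : ∀ y, ¬ LinearIndependent ℂ ![A y, B y]) {y z : X}
    (hi : LinearIndependent ℂ ![A y, A z]) {c d : ℂ} (hc : B y = c • A y) (hd : B z = d • A z) :
    c = d := by
  have h0 := LinearIndependent.pair_iff.1 hi
  have hne : A (y + z) ≠ 0 := by
    intro h1
    rw [map_add] at h1
    have := (h0 1 1 (by simpa using h1)).1
    exact one_ne_zero this
  obtain ⟨e, he⟩ := dep_pair (h (y + z)) hne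
  rw [map_add, map_add, hc, hd, smul_add] at he
  have h2 := h0 (e - c) (e - d) (by
    rw [sub_smul, sub_smul]
    have : e • A y - c • A y + (e • A z - d • A z) = (e • A y + e • A z) - (c • A y + d • A z) := by
      abel
    rw [this, he, sub_self])
  rw [← sub_eq_zero.1 h2.1, ← sub_eq_zero.1 h2.2]

theorem prop_of_indep (A B : X →L[ℂ] Y) (h : ∀ y, ¬ LinearIndependent ℂ ![A y, B y]) {y1 y2 : X}
    (hi : LinearIndependent ℂ ![A y1, A y2]) : ∃ c : ℂ, B = c • A := by
  have h0 := LinearIndependent.pair_iff.1 hi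
  have hy1 : A y1 ≠ 0 := by
    intro h1
    exact one_ne_zero (h0 1 0 (by simp [h1])).1
  have hy2 : A y2 ≠ 0 := by
    intro h1
    exact one_ne_zero (h0 0 1 (by simp [h1])).2
  obtain ⟨c, hc⟩ := dep_pair (h y1) hy1
  obtain ⟨c', hc'⟩ := dep_pair (h y2) hy2
  have hcc := coef_eq_of_indep A B h hi hc hc'
  subst hcc
  refine ⟨c, ?_⟩
  ext y
  rw [smul_apply]
  by_cases h1 : LinearIndependent ℂ ![A y, A y1]
  · have hne : A y ≠ 0 := by
      intro h2
      exact one_ne_zero ((LinearIndependent.pair_iff.1 h1) 1 0 (by simp [h2])).1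
    obtain ⟨d, hd⟩ := dep_pair (h y) hne
    rw [hd, coef_eq_of_indep A B h h1 hd hc]
  by_cases h2 : LinearIndependent ℂ ![A y, A y2]
  · have hne : A y ≠ 0 := by
      intro h3
      exact one_ne_zero ((LinearIndependent.pair_iff.1 h2) 1 0 (by simp [h3])).1
    obtain ⟨d, hd⟩ := dep_pair (h y) hne
    rw [hd, coef_eq_of_indep A B h h2 hd hc']
  rw [LinearIndependent.pair_symm_iff] at h1 h2
  obtain ⟨a, ha⟩ := dep_pair h1 hy1
  obtain ⟨b, hb⟩ := dep_pair h2 hy2
  have h3 := h0 a (-b) (by rw [← ha, neg_smul, ← hb, add_neg_cancel])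
  have h4 : A y = 0 := by rw [ha, h3.1, zero_smul]
  have h5 : LinearIndependent ℂ ![A (y + y1), A y2] := by
    rw [map_add, h4, zero_add]
    exact hi
  have hne : A (y + y1) ≠ 0 := by
    rw [map_add, h4, zero_add]
    exact hy1
  obtain ⟨d, hd⟩ := dep_pair (h (y + y1)) hne
  have h6 := coef_eq_of_indep A B h h5 hd hc'
  rw [h6, map_add, map_add, h4, zero_add, hc] at hd
  rw [h4, smul_zero]
  simpa using hd

theorem rank_one_of_dep (A : X →L[ℂ] Y) (h : ∀ y1 y2, ¬ LinearIndependent ℂ ![A y1, A y2])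
    (hA : A ≠ 0) : ∃ (u : Y) (f : X →L[ℂ] ℂ), u ≠ 0 ∧ A = f.smulRight u := by
  have h1 : ∃ y0, A y0 ≠ 0 := by
    by_contra hcon
    push Not at hcon
    exact hA (by ext y; simpa using hcon y)
  obtain ⟨y0, hy0⟩ := h1
  obtain ⟨φ, hφ⟩ := SeparatingDual.exists_eq_one (R := ℂ) hy0
  refine ⟨A y0, φ.comp A, hy0, ?_⟩
  ext y
  obtain ⟨c, hc⟩ := dep_pair (h y0 y) hy0
  rw [smulRight_apply, comp_apply, hc, map_smul, hφ, smul_eq_mul, mul_one]

/-- locally parallel operators -/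
theorem locally_parallel (A B : X →L[ℂ] Y) (h : ∀ y, ¬ LinearIndependent ℂ ![A y, B y]) :
    (∃ c : ℂ, B = c • A) ∨ (∃ c : ℂ, A = c • B) ∨
    (∃ (u : Y) (f g : X →L[ℂ] ℂ), A = f.smulRight u ∧ B = g.smulRight u) := by
  by_cases hA : ∃ y1 y2, LinearIndependent ℂ ![A y1, A y2]
  · obtain ⟨y1, y2, hi⟩ := hA
    exact Or.inl (prop_of_indep A B h hi)
  by_cases hB : ∃ y1 y2, LinearIndependent ℂ ![B y1, B y2]
  · obtain ⟨y1, y2, hi⟩ := hB
    refine Or.inr (Or.inl (prop_of_indep B A (fun y => ?_) hi))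
    rw [LinearIndependent.pair_symm_iff]
    exact h y
  push Not at hA hB
  by_cases hA0 : A = 0
  · exact Or.inr (Or.inl ⟨0, by rw [hA0, zero_smul]⟩)
  by_cases hB0 : B = 0
  · exact Or.inl ⟨0, by rw [hB0, zero_smul]⟩
  obtain ⟨u, f, hu, rfl⟩ := rank_one_of_dep A hA hA0
  obtain ⟨w, g, hw, rfl⟩ := rank_one_of_dep B hB hB0
  have hf : ∃ y, f y ≠ 0 := by
    by_contra hcon
    push Not at hcon
    exact hA0 (by ext y; simp [hcon y])
  have hg : ∃ y, g y ≠ 0 := by
    by_contra hcon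
    push Not at hcon
    exact hB0 (by ext y; simp [hcon y])
  have hfg : ∃ y, f y ≠ 0 ∧ g y ≠ 0 := by
    obtain ⟨y0, hy0⟩ := hf
    obtain ⟨y1, hy1⟩ := hg
    by_cases h1 : g y0 = 0
    · by_cases h2 : f y1 = 0
      · exact ⟨y0 + y1, by rw [map_add, h2, add_zero]; exact hy0,
          by rw [map_add, h1, zero_add]; exact hy1⟩
      · exact ⟨y1, h2, hy1⟩
    · exact ⟨y0, hy0, h1⟩
  obtain ⟨y, hy1, hy2⟩ := hfg
  have h1 := h y
  rw [smulRight_apply, smulRight_apply] at h1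
  obtain ⟨c, hc⟩ := dep_pair h1 (smul_ne_zero hy1 hu)
  have hw' : w = ((g y)⁻¹ * c * f y) • u := by
    have : (g y)⁻¹ • (g y • w) = (g y)⁻¹ • (c • f y • u) := by rw [hc]
    rw [smul_smul, inv_mul_cancel₀ hy2, one_smul] at this
    rw [this, smul_smul, smul_smul, mul_assoc]
  refine Or.inr (Or.inr ⟨u, f, ((g y)⁻¹ * c * f y) • g, rfl, ?_⟩)
  ext z
  rw [smulRight_apply, smulRight_apply, smul_apply, smul_eq_mul]
  conv_lhs => rw [hw']
  rw [smul_smul, mul_comm]

theorem scalar_of_eigen_all (E : X →L[ℂ] X) (h : ∀ x, ∃ c : ℂ, E x = c • x) :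
    ∃ c : ℂ, E = c • (1 : X →L[ℂ] X) := by
  obtain ⟨c, hc⟩ := LinearMap.exists_eq_smul_id_of_forall_notLinearIndependent
    (f := (E : X →ₗ[ℂ] X)) (by
      intro v hli
      obtain ⟨c, hc⟩ := h v
      have h1 := (LinearIndependent.pair_iff.1 hli) c (-1) (by
        rw [ContinuousLinearMap.coe_coe, hc, neg_smul, one_smul, add_neg_cancel])
      exact (neg_ne_zero.2 one_ne_zero) h1.2)
  refine ⟨c, ?_⟩
  ext x
  have h1 := LinearMap.congr_fun hc x
  simpa using h1

/-- every vector in a large set is an eigenvector -/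
theorem scalar_of_eigen (E : X →L[ℂ] X) (x0 : X) (h0 : ∃ c : ℂ, E x0 = c • x0)
    (h : ∀ z : X, ∃ t1 t2 : ℂ, t1 ≠ 0 ∧ t2 ≠ 0 ∧ t1 ≠ t2 ∧
      (∃ c : ℂ, E (x0 + t1 • z) = c • (x0 + t1 • z)) ∧
      (∃ c : ℂ, E (x0 + t2 • z) = c • (x0 + t2 • z))) :
    ∃ c : ℂ, E = c • (1 : X →L[ℂ] X) := by
  by_cases hx : x0 = 0
  · apply scalar_of_eigen_all
    intro z
    obtain ⟨t1, t2, ht1, -, -, ⟨c, hc⟩, -⟩ := h z
    rw [hx, zero_add, map_smul, smul_comm] at hc
    exact ⟨c, smul_right_injective X ht1 hc⟩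
  obtain ⟨c0, hc0⟩ := h0
  refine ⟨c0, ?_⟩
  ext z
  change E z = c0 • z
  obtain ⟨t1, t2, ht1, ht2, ht, ⟨c1, hc1⟩, ⟨c2, hc2⟩⟩ := h z
  by_cases hli : LinearIndependent ℂ ![x0, z]
  · have h1 := LinearIndependent.pair_iff.1 hli
    rw [map_add, map_smul, hc0] at hc1 hc2
    -- `t1 E z = (c1 - c0) x0 + c1 t1 z`
    have e1 : E z = ((c1 - c0) / t1) • x0 + c1 • z := by
      have : t1 • E z = t1 • (((c1 - c0) / t1) • x0 + c1 • z) := by
        rw [smul_add, smul_smul, mul_div_cancel₀ _ ht1, sub_smul, smul_comm t1 c1 z]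
        rw [smul_add] at hc1
        rw [← sub_eq_zero] at hc1 ⊢
        rw [← hc1]
        abel
      exact smul_right_injective X ht1 this
    have e2 : E z = ((c2 - c0) / t2) • x0 + c2 • z := by
      have : t2 • E z = t2 • (((c2 - c0) / t2) • x0 + c2 • z) := by
        rw [smul_add, smul_smul, mul_div_cancel₀ _ ht2, sub_smul, smul_comm t2 c2 z]
        rw [smul_add] at hc2
        rw [← sub_eq_zero] at hc2 ⊢
        rw [← hc2]
        abel
      exact smul_right_injective X ht2 this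
    have e3 := h1 ((c1 - c0) / t1 - (c2 - c0) / t2) (c1 - c2) (by
      rw [sub_smul, sub_smul]
      rw [e1] at e2
      rw [← sub_eq_zero] at e2
      rw [← e2]
      abel)
    have e4 : c1 = c2 := sub_eq_zero.1 e3.2
    have e5 : c1 = c0 := by
      have e6 := e3.1
      rw [← e4, div_sub_div _ _ ht1 ht2, div_eq_zero_iff] at e6
      rcases e6 with e6 | e6
      · have e7 : (c1 - c0) * (t2 - t1) = 0 := by linear_combination e6
        rcases mul_eq_zero.1 e7 with e8 | e8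
        · exact sub_eq_zero.1 e8
        · exact absurd (sub_eq_zero.1 e8).symm ht
      · exact absurd e6 (mul_ne_zero ht1 ht2)
    rw [e1, e5, sub_self, zero_div, zero_smul, zero_add]
  · obtain ⟨a, ha⟩ := dep_pair hli hx
    rw [ha, map_smul, hc0, smul_comm]

/-- `A` is scalar modulo `u` -/
theorem scalar_mod_vector (A : X →L[ℂ] X) (u : X)
    (hX : ∃ v : Fin 3 → X, LinearIndependent ℂ v)
    (h : ∀ y, A y ∈ Submodule.span ℂ {y, u}) :
    ∃ (l : ℂ) (f : X →L[ℂ] ℂ), A = l • (1 : X →L[ℂ] X) + rk u f := by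
  have _ := hX
  set S := Submodule.span ℂ {u} with hSdef
  have hS : S ≤ S.comap (A : X →ₗ[ℂ] X) := by
    rw [hSdef, Submodule.span_singleton_le_iff_mem, Submodule.mem_comap]
    have := h u
    rw [Set.pair_eq_singleton] at this
    exact this
  obtain ⟨l, hl⟩ := LinearMap.exists_eq_smul_id_of_forall_notLinearIndependent
    (f := S.mapQ S (A : X →ₗ[ℂ] X) hS) (by
      intro v hli
      obtain ⟨y, rfl⟩ := S.mkQ_surjective v
      obtain ⟨a, b, hab⟩ := Submodule.mem_span_pair.1 (h y)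
      have h1 := (LinearIndependent.pair_iff.1 hli) a (-1) (by
        rw [Submodule.mkQ_apply, Submodule.mapQ_apply, neg_smul, one_smul, ← Submodule.Quotient.mk_smul,
          ← sub_eq_add_neg, ← Submodule.Quotient.mk_sub, Submodule.Quotient.mk_eq_zero,
          ContinuousLinearMap.coe_coe, ← hab, sub_add_cancel_left]
        exact S.neg_mem (S.smul_mem _ (Submodule.mem_span_singleton_self u)))
      exact (neg_ne_zero.2 one_ne_zero) h1.2)
  have h1 : ∀ y, A y - l • y ∈ S := by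
    intro y
    have h2 := LinearMap.congr_fun hl (S.mkQ y)
    rw [Submodule.mkQ_apply, Submodule.mapQ_apply, LinearMap.smul_apply, Module.End.one_apply,
      ← Submodule.Quotient.mk_smul, Submodule.Quotient.eq] at h2
    exact h2
  by_cases hu : u = 0
  · refine ⟨l, 0, ?_⟩
    ext y
    have h2 := h1 y
    rw [hSdef, hu, Submodule.span_zero_singleton, Submodule.mem_bot, sub_eq_zero] at h2
    simp [h2, hu]
  obtain ⟨φ, hφ⟩ := SeparatingDual.exists_eq_one (R := ℂ) hu
  refine ⟨l, φ.comp (A - l • (1 : X →L[ℂ] X)), ?_⟩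
  ext y
  obtain ⟨c, hc⟩ := Submodule.mem_span_singleton.1 (h1 y)
  change A y = l • y + φ (A y - l • y) • u
  rw [← hc, map_smul, hφ, smul_eq_mul, mul_one, hc]
  abel

end lld

end PR
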