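import Pool.Agent.Helper26.PR.TK6

/-!
# PR-TK7: locally dependent triples containing the identity
-/

set_option autoImplicit false

namespace PR

open ContinuousLinearMap

section lld

variable {X : Type*} [NormedAddCommGroup X] [NormedSpace ℂ X]

theorem li3_iff {a b c : X} : LinearIndependent ℂ ![a, b, c] ↔
    ∀ r s t : ℂ, r • a + s • b + t • c = 0 → r = 0 ∧ s = 0 ∧ t = 0 := by
  rw [Fintype.linearIndependent_iff]
  constructor
  · intro h r s t hrst
    have h1 := h ![r, s, t] (by
      rw [Fin.sum_univ_three]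
      simpa using hrst)
    exact ⟨by simpa using h1 0, by simpa using h1 1, by simpa using h1 2⟩
  · intro h g hg
    rw [Fin.sum_univ_three] at hg
    have h1 := h (g 0) (g 1) (g 2) (by simpa using hg)
    intro i
    fin_cases i
    · exact h1.1
    · exact h1.2.1
    · exact h1.2.2

theorem dep3 {a b c : X} (h : ¬ LinearIndependent ℂ ![a, b, c]) :
    ∃ r s t : ℂ, r • a + s • b + t • c = 0 ∧ ¬ (r = 0 ∧ s = 0 ∧ t = 0) := by
  rw [li3_iff] at h
  push Not at h
  obtain ⟨r, s, t, h1, h2⟩ := h
  exact ⟨r, s, t, h1, fun h3 => h2 h3.1 h3.2.1 h3.2.2⟩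

/-- Dependence of a triple passes to the limit. -/
theorem dep3_limit {a b c : ℂ → X} (ha : Continuous a) (hb : Continuous b) (hc : Continuous c)
    (h : ∀ t : ℂ, t ≠ 0 → ¬ LinearIndependent ℂ ![a t, b t, c t]) :
    ¬ LinearIndependent ℂ ![a 0, b 0, c 0] := by
  intro h0
  have hopen : IsOpen {f : Fin 3 → X | LinearIndependent ℂ f} := isOpen_setOfPred_linearIndependent
  have hcont : Continuous (fun t => ![a t, b t, c t]) := by
    apply continuous_pi
    intro i
    fin_cases i
    · exact ha
    · exact hb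
    · exact hc
  have h1 : ∀ᶠ t in nhds (0 : ℂ), LinearIndependent ℂ ![a t, b t, c t] :=
    hcont.continuousAt.eventually (hopen.mem_nhds h0)
  have h2 : ∀ᶠ t in nhdsWithin (0 : ℂ) {0}ᶜ, LinearIndependent ℂ ![a t, b t, c t] :=
    h1.filter_mono nhdsWithin_le_nhds
  have h3 : ∀ᶠ t in nhdsWithin (0 : ℂ) {0}ᶜ, t ≠ 0 := eventually_mem_nhdsWithin
  obtain ⟨t, ht1, ht2⟩ := (h2.and h3).exists
  exact h t ht2 ht1

/-- The core case: `B` vanishes at a vector `y0` which is no eigenvector of `A`. -/
theorem lld_core (A B : X →L[ℂ] X) (hX : ∃ v : Fin 3 → X, LinearIndependent ℂ v)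
    (h : ∀ y, ¬ LinearIndependent ℂ ![y, A y, B y]) (y0 : X)
    (hy0 : LinearIndependent ℂ ![y0, A y0]) (hB0 : B y0 = 0) :
    (∃ p q r : ℂ, (p, q, r) ≠ (0, 0, 0) ∧ p • A + q • B + r • (1 : X →L[ℂ] X) = 0) ∨
    (∃ (l m : ℂ) (u : X) (f g : X →L[ℂ] ℂ),
      A = l • (1 : X →L[ℂ] X) + rk u f ∧ B = m • (1 : X →L[ℂ] X) + rk u g) := by
  -- `B z` lies in `W = span (y0, A y0)`
  have hW : ∀ z, B z ∈ Submodule.span ℂ {y0, A y0} := by
    intro z
    have h1 : ¬ LinearIndependent ℂ ![y0, A y0, B z] := by
      have h2 := dep3_limit (a := fun t => y0 + t • z) (b := fun t => A (y0 + t • z))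
        (c := fun _ => B z) (by fun_prop) (by fun_prop) (by fun_prop) (by
          intro t ht hli
          apply h (y0 + t • z)
          rw [map_add B, hB0, zero_add, map_smul B, li3_iff]
          rw [li3_iff] at hli
          intro r s q hrsq
          have h3 := hli r s (q * t) (by rw [mul_smul]; exact hrsq)
          exact ⟨h3.1, h3.2.1, (mul_eq_zero.1 h3.2.2).resolve_right ht⟩)
      simpa using h2
    obtain ⟨r, s, t, h2, h3⟩ := dep3 h1
    have ht : t ≠ 0 := by
      rintro rfl
      rw [zero_smul, add_zero] at h2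
      have h4 := LinearIndependent.pair_iff.1 hy0 r s h2
      exact h3 ⟨h4.1, h4.2, rfl⟩
    rw [Submodule.mem_span_pair]
    refine ⟨-(t⁻¹ * r), -(t⁻¹ * s), ?_⟩
    have h4 : t • B z = -(r • y0) - s • A y0 := by
      rw [eq_sub_iff_add_eq, ← sub_eq_zero, ← h2]
      abel
    have h5 : B z = t⁻¹ • (-(r • y0) - s • A y0) := by
      rw [← h4, smul_smul, inv_mul_cancel₀ ht, one_smul]
    rw [h5, smul_sub, smul_neg, smul_smul, smul_smul, neg_smul, neg_smul, sub_eq_add_neg]
  by_cases hB : ∃ z1 z2, LinearIndependent ℂ ![B z1, B z2]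
  · -- rank two: impossible
    exfalso
    obtain ⟨z1, z2, hz⟩ := hB
    have hz' := LinearIndependent.pair_iff.1 hz
    -- `y0` in the range of `B`
    have hy0' := LinearIndependent.pair_iff.1 hy0
    have hy0ne : y0 ≠ 0 := by
      intro h1
      exact one_ne_zero (hy0' 1 0 (by simp [h1])).1
    have hAy0ne : A y0 ≠ 0 := by
      intro h1
      exact one_ne_zero (hy0' 0 1 (by simp [h1])).2
    obtain ⟨a1, b1, e1⟩ := Submodule.mem_span_pair.1 (hW z1)
    obtain ⟨a2, b2, e2⟩ := Submodule.mem_span_pair.1 (hW z2)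
    have hdet : a1 * b2 - a2 * b1 ≠ 0 := by
      intro hdet
      -- dependence of `B z1, B z2`
      by_cases hb : b1 = 0 ∧ b2 = 0
      · rw [hb.1, zero_smul, add_zero] at e1
        rw [hb.2, zero_smul, add_zero] at e2
        have h1 := hz' a2 (-a1) (by
          rw [← e1, ← e2, smul_smul, neg_smul, smul_smul, mul_comm a2 a1, add_neg_cancel])
        have h2 : a1 = 0 := neg_eq_zero.1 h1.2
        have h3 := hz' 1 0 (by rw [← e1, h2]; simp)
        exact one_ne_zero h3.1
      · have h1 := hz' b2 (-b1) (by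
          rw [← e1, ← e2, smul_add, smul_add, smul_smul, smul_smul, smul_smul, smul_smul]
          have h3 : (b2 * a1) • y0 + (b2 * b1) • A y0 + (-b1 * a2) • y0 + (-b1 * b2) • A y0
              = (a1 * b2 - a2 * b1) • y0 := by
            rw [sub_smul, neg_mul, neg_smul, neg_mul, neg_smul, mul_comm b2 a1, mul_comm b1 a2,
              mul_comm b1 b2]
            abel
          rw [← add_assoc, h3, hdet, zero_smul])
        exact hb ⟨neg_eq_zero.1 h1.2, h1.1⟩
    have hz3 : ∃ z, B z = y0 := by
      refine ⟨((a1 * b2 - a2 * b1)⁻¹ * b2) • z1 - ((a1 * b2 - a2 * b1)⁻¹ * b1) • z2, ?_⟩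
      rw [map_sub, map_smul, map_smul, ← e1, ← e2]
      have h3 : ((a1 * b2 - a2 * b1)⁻¹ * b2) • (a1 • y0 + b1 • A y0)
          - ((a1 * b2 - a2 * b1)⁻¹ * b1) • (a2 • y0 + b2 • A y0)
          = ((a1 * b2 - a2 * b1)⁻¹ * (a1 * b2 - a2 * b1)) • y0 := by
        rw [smul_add, smul_add, smul_smul, smul_smul, smul_smul, smul_smul]
        have h4 : (a1 * b2 - a2 * b1)⁻¹ * b2 * b1 = (a1 * b2 - a2 * b1)⁻¹ * b1 * b2 := by ring
        rw [h4, add_sub_add_right_eq_sub, ← sub_smul]
        congr 1
        ring
      rw [h3, inv_mul_cancel₀ hdet, one_smul]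
    obtain ⟨z, hz0⟩ := hz3
    have hzy : LinearIndependent ℂ ![y0, z] := by
      rw [LinearIndependent.pair_iff]
      intro s t hst
      have h1 : t • y0 = 0 := by
        have h2 := congrArg B hst
        rw [map_add, map_smul, map_smul, hB0, smul_zero, zero_add, hz0, map_zero] at h2
        exact h2
      have h2 : t = 0 := (smul_eq_zero.1 h1).resolve_right hy0ne
      rw [h2, zero_smul, add_zero] at hst
      exact ⟨(smul_eq_zero.1 hst).resolve_right hy0ne, h2⟩
    have hzy' := LinearIndependent.pair_iff.1 hzy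
    -- `A z + s A y0` lies in `span (y0, z)`
    have h4 : ∀ s : ℂ, ∃ p q : ℂ, A z + s • A y0 = p • y0 + q • z := by
      intro s
      obtain ⟨r, t, q, h5, h6⟩ := dep3 (h (z + s • y0))
      rw [map_add B, map_smul B, hB0, smul_zero, add_zero, hz0] at h5
      have ht : t ≠ 0 := by
        rintro rfl
        rw [zero_smul, add_zero, smul_add, smul_smul] at h5
        have h7 := hzy' (r * s + q) r (by rw [add_smul, ← h5]; abel)
        have h8 : q = 0 := by
          have := h7.1
          rw [h7.2, zero_mul, zero_add] at this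
          exact this
        exact h6 ⟨h7.2, rfl, h8⟩
      refine ⟨t⁻¹ * -(r * s + q), t⁻¹ * -r, ?_⟩
      have h7 : t • (A z + s • A y0) = (-(r * s + q)) • y0 + (-r) • z := by
        rw [map_add, map_smul, smul_add r, smul_smul] at h5
        rw [neg_smul, neg_smul, add_smul, ← sub_eq_zero, ← h5]
        abel
      rw [mul_smul, mul_smul, ← smul_add, ← h7, smul_smul, inv_mul_cancel₀ ht, one_smul]
    -- `A z` and `A y0` lie in `span (y0, z)`
    obtain ⟨p0, q0, hAz⟩ := h4 0
    rw [zero_smul, add_zero] at hAz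
    obtain ⟨p1, q1, hA1⟩ := h4 1
    rw [one_smul] at hA1
    have hAy0 : A y0 = (p1 - p0) • y0 + (q1 - q0) • z := by
      have : A y0 = (A z + A y0) - A z := by abel
      rw [this, hA1, hAz, sub_smul, sub_smul]
      abel
    have hq : q1 - q0 ≠ 0 := by
      intro h5
      rw [h5, zero_smul, add_zero] at hAy0
      have := hy0' (p1 - p0) (-1) (by rw [← hAy0]; simp)
      exact (neg_ne_zero.2 one_ne_zero) this.2
    -- everything in `W` is a combination of `y0` and `z`
    have hWz : ∀ x, ∃ p q : ℂ, B x = p • y0 + q • z := by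
      intro x
      obtain ⟨a, b, hab⟩ := Submodule.mem_span_pair.1 (hW x)
      refine ⟨a + b * (p1 - p0), b * (q1 - q0), ?_⟩
      rw [← hab, hAy0, smul_add, smul_smul, smul_smul, add_smul, add_assoc]
    -- a vector `w` with `B w` not a multiple of `y0`
    have hw : ∃ w, LinearIndependent ℂ ![B w, y0] := by
      by_contra hcon
      push Not at hcon
      have h5 := hcon z1
      have h6 := hcon z2
      rw [LinearIndependent.pair_symm_iff] at h5 h6
      obtain ⟨c1, hc1⟩ := dep_pair h5 hy0ne
      obtain ⟨c2, hc2⟩ := dep_pair h6 hy0ne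
      have h7 := hz' c2 (-c1) (by
        rw [hc1, hc2, smul_smul, neg_smul, smul_smul, mul_comm c2 c1, add_neg_cancel])
      have h8 : c2 = 0 := h7.1
      have h9 := hz' 0 1 (by rw [hc2, h8]; simp)
      exact one_ne_zero h9.2
    obtain ⟨w, hw⟩ := hw
    have hw' := LinearIndependent.pair_iff.1 hw
    -- `w` is independent of `y0, z`
    have hw3 : LinearIndependent ℂ ![w, y0, z] := by
      rw [li3_iff]
      intro r s t hrst
      have h5 : r • B w + t • y0 = 0 := by
        have h6 := congrArg B hrst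
        rw [map_add, map_add, map_smul, map_smul, map_smul, hB0, smul_zero, add_zero, hz0,
          map_zero] at h6
        exact h6
      have h6 := hw' r t h5
      rw [h6.1, h6.2, zero_smul, zero_smul, zero_add, add_zero] at hrst
      exact ⟨h6.1, (smul_eq_zero.1 hrst).resolve_right hy0ne, h6.2⟩
    have hw3' := li3_iff.1 hw3
    -- `A w = l w + p y0 + q z`
    have hAw : ∃ l p q : ℂ, A w = l • w + p • y0 + q • z := by
      obtain ⟨r, s, t, h5, h6⟩ := dep3 (h w)
      obtain ⟨p, q, hpq⟩ := hWz w
      have hs : s ≠ 0 := by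
        rintro rfl
        rw [zero_smul, add_zero, hpq, smul_add, smul_smul, smul_smul, ← add_assoc] at h5
        have h7 := hw3' r (t * p) (t * q) h5
        have h8 : t ≠ 0 := by
          rintro rfl
          exact h6 ⟨h7.1, rfl, rfl⟩
        have h9 : p = 0 := (mul_eq_zero.1 h7.2.1).resolve_left h8
        have h10 : q = 0 := (mul_eq_zero.1 h7.2.2).resolve_left h8
        have h11 : B w = 0 := by rw [hpq, h9, h10]; simp
        exact one_ne_zero (hw' 1 0 (by rw [h11]; simp)).1
      refine ⟨s⁻¹ * -r, s⁻¹ * -(t * p), s⁻¹ * -(t * q), ?_⟩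
      have h7 : s • A w = (-r) • w + (-(t * p)) • y0 + (-(t * q)) • z := by
        rw [hpq, smul_add, smul_smul, smul_smul] at h5
        rw [neg_smul, neg_smul, neg_smul, ← sub_eq_zero, ← h5]
        abel
      rw [mul_smul, mul_smul, mul_smul, ← smul_add, ← smul_add, ← h7, smul_smul,
        inv_mul_cancel₀ hs, one_smul]
    obtain ⟨l, p2, q2, hAw⟩ := hAw
    -- for `y1` in `span (y0, z)`, `(A - l) (w + y1)` is a multiple of `B (w + y1)`
    have key : ∀ s t : ℂ, ∃ c : ℂ, (p2 • y0 + q2 • z) + (s • A y0 + t • A z)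
        - l • (s • y0 + t • z) = c • (B w + t • y0) := by
      intro s t
      set y := w + (s • y0 + t • z) with hy
      have hAy : A y = l • y + ((p2 • y0 + q2 • z) + (s • A y0 + t • A z)
          - l • (s • y0 + t • z)) := by
        rw [hy, map_add, map_add, map_smul, map_smul, hAw, smul_add l w]
        abel
      have hBy : B y = B w + t • y0 := by
        rw [hy, map_add, map_add, map_smul, map_smul, hB0, hz0, smul_zero, zero_add]
      -- express in terms of `y0, z`
      have hVex : ∃ p q : ℂ, (p2 • y0 + q2 • z) + (s • A y0 + t • A z)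
          - l • (s • y0 + t • z) = p • y0 + q • z := by
        refine ⟨p2 + s * (p1 - p0) + t * p0 - l * s, q2 + s * (q1 - q0) + t * q0 - l * t, ?_⟩
        rw [hAy0, hAz]
        module
      obtain ⟨p, q, hV⟩ := hVex
      obtain ⟨p', q', hBw⟩ := hWz w
      have hBne : B w + t • y0 ≠ 0 := by
        intro h5
        exact one_ne_zero (hw' 1 t (by rw [one_smul]; exact h5)).1
      obtain ⟨r1, s1, t1, h5, h6⟩ := dep3 (h y)
      rw [hAy, hBy, hV] at h5
      -- coefficient of `w`
      have h7 : (r1 + s1 * l) • w + ((r1 + s1 * l) * s + s1 * p + t1 * (p' + t)) • y0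
          + ((r1 + s1 * l) * t + s1 * q + t1 * q') • z = 0 := by
        rw [← h5, hy, hBw]
        module
      have h8 := hw3' _ _ _ h7
      have h9 : r1 + s1 * l = 0 := h8.1
      have h10 : s1 • (p • y0 + q • z) + t1 • (B w + t • y0) = 0 := by
        have h11 : s1 • (p • y0 + q • z) + t1 • (B w + t • y0)
            = ((r1 + s1 * l) * s + s1 * p + t1 * (p' + t)) • y0
          + ((r1 + s1 * l) * t + s1 * q + t1 * q') • z := by
          rw [h9, hBw]
          module
        rw [h11, h8.2.1, h8.2.2]
        simp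
      have hs1 : s1 ≠ 0 := by
        rintro rfl
        rw [zero_smul, zero_add] at h10
        have h12 : t1 = 0 := (smul_eq_zero.1 h10).resolve_right hBne
        have h13 : r1 = 0 := by simpa using h9
        exact h6 ⟨h13, rfl, h12⟩
      refine ⟨s1⁻¹ * -t1, ?_⟩
      rw [hV]
      have h11 : s1 • (p • y0 + q • z) = (-t1) • (B w + t • y0) := by
        rw [neg_smul]
        exact eq_neg_of_add_eq_zero_left h10
      rw [mul_smul, ← h11, smul_smul, inv_mul_cancel₀ hs1, one_smul]
    -- `A y0 - l y0` is a multiple of `B w + t y0` for every `t`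
    have key2 : ∀ t : ℂ, ∃ c : ℂ, A y0 - l • y0 = c • (B w + t • y0) := by
      intro t
      obtain ⟨c1, h1⟩ := key 1 t
      obtain ⟨c0, h0⟩ := key 0 t
      refine ⟨c1 - c0, ?_⟩
      rw [sub_smul, ← h1, ← h0]
      simp only [one_smul, zero_smul, smul_add, zero_add]
      abel
    obtain ⟨c, hc⟩ := key2 0
    obtain ⟨d, hd⟩ := key2 1
    rw [zero_smul, add_zero] at hc
    rw [one_smul, smul_add] at hd
    have h5 := hw' (c - d) (-d) (by
      rw [sub_smul, ← hc, hd, neg_smul]
      abel)
    have h6 : d = 0 := neg_eq_zero.1 h5.2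
    have h7 : A y0 - l • y0 = 0 := by rw [hd, h6]; simp
    have h8 := hy0' l (-1) (by
      rw [neg_smul, one_smul, ← sub_eq_add_neg, ← neg_eq_zero, neg_sub]
      exact h7)
    exact (neg_ne_zero.2 one_ne_zero) h8.2
  · -- rank at most one
    push Not at hB
    by_cases hBz : B = 0
    · left
      exact ⟨0, 1, 0, by simp, by rw [hBz]; simp⟩
    obtain ⟨u, g, hu, hBu⟩ := rank_one_of_dep B hB hBz
    have hg : ∃ z0, g z0 ≠ 0 := by
      by_contra hcon
      push Not at hcon
      exact hBz (by rw [hBu]; ext y; simp [hcon y])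
    obtain ⟨z0, hz0⟩ := hg
    have h1 : ∀ y, g y ≠ 0 → ¬ LinearIndependent ℂ ![y, A y, u] := by
      intro y hy hli
      apply h y
      rw [li3_iff] at hli ⊢
      intro r s t hrst
      have h2 := hli r s (t * g y) (by
        rw [mul_smul]
        rw [hBu, smulRight_apply] at hrst
        exact hrst)
      exact ⟨h2.1, h2.2.1, (mul_eq_zero.1 h2.2.2).resolve_right hy⟩
    have h2 : ∀ y, ¬ LinearIndependent ℂ ![y, A y, u] := by
      intro y
      by_cases hy : g y = 0
      · have h3 := dep3_limit (a := fun t => y + t • z0) (b := fun t => A (y + t • z0))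
          (c := fun _ => u) (by fun_prop) (by fun_prop) (by fun_prop) (by
            intro t ht
            apply h1
            rw [map_add, hy, zero_add, map_smul, smul_eq_mul]
            exact mul_ne_zero ht hz0)
        simpa using h3
      · exact h1 y hy
    have h3 : ∀ y, LinearIndependent ℂ ![y, u] → A y ∈ Submodule.span ℂ {y, u} := by
      intro y hy
      obtain ⟨r, s, t, h4, h5⟩ := dep3 (h2 y)
      have hs : s ≠ 0 := by
        rintro rfl
        rw [zero_smul, add_zero] at h4
        have h6 := LinearIndependent.pair_iff.1 hy r t h4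
        exact h5 ⟨h6.1, rfl, h6.2⟩
      rw [Submodule.mem_span_pair]
      refine ⟨s⁻¹ * -r, s⁻¹ * -t, ?_⟩
      have h7 : s • A y = (-r) • y + (-t) • u := by
        rw [neg_smul, neg_smul, ← sub_eq_zero, ← h4]
        abel
      rw [mul_smul, mul_smul, ← smul_add, ← h7, smul_smul, inv_mul_cancel₀ hs, one_smul]
    -- `A u` is a multiple of `u`
    have h4 : ¬ LinearIndependent ℂ ![u, A u] := by
      intro hli
      have hli' := LinearIndependent.pair_iff.1 hli
      have h5 : ∀ z, z ∈ Submodule.span ℂ {u, A u} := by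
        intro z
        by_cases hz : LinearIndependent ℂ ![z, u]
        · have hz1 : LinearIndependent ℂ ![z + u, u] := by
            rw [LinearIndependent.pair_iff] at hz ⊢
            intro s t hst
            have := hz s (s + t) (by rw [← hst, smul_add, add_smul]; abel)
            exact ⟨this.1, by simpa [this.1] using this.2⟩
          obtain ⟨a, b, hab⟩ := Submodule.mem_span_pair.1 (h3 z hz)
          obtain ⟨a', b', hab'⟩ := Submodule.mem_span_pair.1 (h3 (z + u) hz1)
          have hAu : A u = (a' - a) • z + (a' + b' - b) • u := by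
            have : A u = A (z + u) - A z := by rw [map_add]; abel
            rw [this, ← hab, ← hab', smul_add]
            simp only [add_smul, sub_smul]
            abel
          have hne : a' - a ≠ 0 := by
            intro h6
            rw [h6, zero_smul, zero_add] at hAu
            have := hli' (a' + b' - b) (-1) (by
              rw [neg_smul, one_smul, ← hAu, add_neg_cancel])
            exact (neg_ne_zero.2 one_ne_zero) this.2
          rw [Submodule.mem_span_pair]
          refine ⟨-((a' - a)⁻¹ * (a' + b' - b)), (a' - a)⁻¹, ?_⟩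
          rw [hAu, smul_add, smul_smul, inv_mul_cancel₀ hne, one_smul, smul_smul, neg_smul]
          abel
        · rw [LinearIndependent.pair_symm_iff] at hz
          obtain ⟨c, hc⟩ := dep_pair hz hu
          rw [hc]
          exact Submodule.smul_mem _ _ (Submodule.subset_span (by simp))
      obtain ⟨v, hv⟩ := hX
      have h6 : Set.range v ≤ Submodule.span ℂ ({u, A u} : Set X) := by
        rintro _ ⟨i, rfl⟩
        exact h5 (v i)
      classical
      have h7 := linearIndependent_le_span_aux' v hv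
        (((({u, A u} : Finset X)) : Set X)) (by simpa using h6)
      have h8 : Fintype.card ((({u, A u} : Finset X) : Set X)) ≤ 2 := by
        simpa only [Finset.coe_sort_coe, Fintype.card_coe] using
          (Finset.card_le_two : ({u, A u} : Finset X).card ≤ 2)
      rw [Fintype.card_fin] at h7
      omega
    obtain ⟨c0, hc0⟩ := dep_pair h4 hu
    have h5 : ∀ y, A y ∈ Submodule.span ℂ {y, u} := by
      intro y
      by_cases hy : LinearIndependent ℂ ![y, u]
      · exact h3 y hy
      · rw [LinearIndependent.pair_symm_iff] at hy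
        obtain ⟨c, hc⟩ := dep_pair hy hu
        rw [hc, map_smul, hc0]
        exact Submodule.smul_mem _ _ (Submodule.smul_mem _ _ (Submodule.subset_span (by simp)))
    obtain ⟨l, f, hf⟩ := scalar_mod_vector A u hX h5
    right
    refine ⟨l, 0, u, f, g, hf, ?_⟩
    rw [zero_smul, zero_add, hBu]
    rfl

/-- locally dependent triples containing the identity -/
theorem lld (A B : X →L[ℂ] X) (hX : ∃ v : Fin 3 → X, LinearIndependent ℂ v)
    (h : ∀ y, ¬ LinearIndependent ℂ ![y, A y, B y]) :
    (∃ p q r : ℂ, (p, q, r) ≠ (0, 0, 0) ∧ p • A + q • B + r • (1 : X →L[ℂ] X) = 0) ∨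
    (∃ (l m : ℂ) (u : X) (f g : X →L[ℂ] ℂ),
      A = l • (1 : X →L[ℂ] X) + rk u f ∧ B = m • (1 : X →L[ℂ] X) + rk u g) := by
  by_cases hA : ∀ y, ¬ LinearIndependent ℂ ![y, A y]
  · left
    obtain ⟨c, hc⟩ := scalar_of_eigen_all A (by
      intro y
      by_cases hy : y = 0
      · exact ⟨0, by rw [hy]; simp⟩
      · exact dep_pair (hA y) hy)
    refine ⟨1, 0, -c, by simp, ?_⟩
    rw [hc]
    simp
  push Not at hA
  obtain ⟨y0, hy0⟩ := hA
  obtain ⟨r, s, t, h1, h2⟩ := dep3 (h y0)
  have ht : t ≠ 0 := by
    rintro rfl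
    rw [zero_smul, add_zero] at h1
    have h3 := LinearIndependent.pair_iff.1 hy0 r s h1
    exact h2 ⟨h3.1, h3.2, rfl⟩
  have hB' : ∀ y, (t • B + s • A + r • (1 : X →L[ℂ] X)) y = t • B y + s • A y + r • y :=
    fun y => rfl
  have hcore := lld_core A (t • B + s • A + r • (1 : X →L[ℂ] X)) hX (by
    intro y hli
    apply h y
    rw [hB'] at hli
    rw [li3_iff] at hli ⊢
    intro a b c habc
    have h3 := hli (a - c * t⁻¹ * r) (b - c * t⁻¹ * s) (c * t⁻¹) (by
      rw [← habc]
      simp only [smul_add, smul_smul, sub_smul]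
      rw [mul_assoc c t⁻¹ t, inv_mul_cancel₀ ht, mul_one]
      abel)
    have h4 : c = 0 := by
      rcases mul_eq_zero.1 h3.2.2 with h5 | h5
      · exact h5
      · exact absurd h5 (inv_ne_zero ht)
    refine ⟨by simpa [h4] using h3.1, by simpa [h4] using h3.2.1, h4⟩) y0 hy0 (by
      rw [hB', ← h1]
      abel)
  rcases hcore with ⟨p, q, w, hne, h3⟩ | ⟨l, m, u, f, g, h3, h4⟩
  · left
    refine ⟨p + q * s, q * t, w + q * r, ?_, ?_⟩
    · intro h5
      rw [Prod.mk.injEq, Prod.mk.injEq] at h5
      obtain ⟨h5, h6, h7⟩ := h5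
      have h8 : q = 0 := (mul_eq_zero.1 h6).resolve_right ht
      rw [h8, zero_mul, add_zero] at h5 h7
      exact hne (by rw [h5, h8, h7])
    · rw [← h3]
      simp only [smul_add, smul_smul, add_smul]
      abel
  · right
    refine ⟨l, t⁻¹ * (m - s * l - r), u, f, t⁻¹ • (g - s • f), h3, ?_⟩
    have h5 : B = t⁻¹ • ((t • B + s • A + r • (1 : X →L[ℂ] X)) - s • A - r • (1 : X →L[ℂ] X)) := by
      have : (t • B + s • A + r • (1 : X →L[ℂ] X)) - s • A - r • (1 : X →L[ℂ] X) = t • B := by
        abel
      rw [this, smul_smul, inv_mul_cancel₀ ht, one_smul]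
    rw [h5, h4, h3]
    ext y
    simp only [add_apply, sub_apply, smul_apply, rk_apply]
    change t⁻¹ • (m • y + g y • u - s • (l • y + f y • u) - r • y)
      = (t⁻¹ * (m - s * l - r)) • y + (t⁻¹ * (g y - s * f y)) • u
    rw [mul_smul, mul_smul, ← smul_add]
    congr 1
    simp only [smul_add, smul_smul, sub_smul]
    abel

end lld

end PR
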