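import Pool.Agent.Helper40.PR.Defs2
import Pool.Agent.Helper8.PR.TK1
import Pool.Agent.Helper73.PR.TK8
import Pool.Agent.Helper54.PR.TK5
import Pool.Agent.Helper26.PR.TK7

/-!
# PR-CD2: the linear family of a linear pair is `p (A + k s B) + γ`
-/

set_option autoImplicit false

namespace PR

open ContinuousLinearMap

section cdtwo

variable {X : Type*} [NormedAddCommGroup X] [NormedSpace ℂ X]

/-- Evaluation of functionals at a vector. -/
noncomputable def evl (v : X) : (X →L[ℂ] ℂ) →ₗ[ℂ] ℂ where
  toFun g := g v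
  map_add' _ _ := rfl
  map_smul' _ _ := rfl

theorem evl_apply (v : X) (g : X →L[ℂ] ℂ) : evl v g = g v := rfl

/-- The pointwise form of the claim. -/
theorem cd_pointwise {A B : X →L[ℂ] X} {C : ℂ → (X →L[ℂ] X)}
    (h : ∀ (y : X) (g : X →L[ℂ] ℂ), g y = 0 → PhaseFam (g (A y)) (g (B y)) (fun s => g (C s y)))
    {y : X} (hy : LinearIndependent ℂ ![y, A y, B y]) :
    ∃ k : ℂ → ℂ, (∀ s s', ‖k s - k s'‖ = ‖s - s'‖) ∧
      ∀ s, ∃ p : ℂ, ‖p‖ = 1 ∧ ∀ g : X →L[ℂ] ℂ, g y = 0 →
        g (C s y) = p * (g (A y) + k s * g (B y)) := by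
  let G : Submodule ℂ (X →L[ℂ] ℂ) := LinearMap.ker (evl y)
  have hG : ∀ g : G, (g : X →L[ℂ] ℂ) y = 0 := fun g => g.2
  obtain ⟨κ, hκ, hcase⟩ := wigner_two (G := G) ((evl (A y)).comp G.subtype)
    ((evl (B y)).comp G.subtype) (fun s => (evl (C s y)).comp G.subtype) (by
      intro α β
      obtain ⟨f, hf⟩ := exists_dual_fin hy ![0, α, β]
      have h0 : f y = 0 := by simpa using hf 0
      have h1 : f (A y) = α := by simpa using hf 1
      have h2 : f (B y) = β := by simpa using hf 2
      exact ⟨⟨f, h0⟩, h1, h2⟩) (by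
      intro g
      exact h y g (hG g))
  rcases hcase with hc | hc
  · refine ⟨fun s => κ * s, ?_, ?_⟩
    · intro s s'
      rw [← mul_sub, norm_mul, hκ, one_mul]
    · intro s
      obtain ⟨p, hp, hps⟩ := hc s
      refine ⟨p, hp, fun g hg => ?_⟩
      have := LinearMap.congr_fun hps ⟨g, hg⟩
      exact this
  · refine ⟨fun s => κ * (starRingEnd ℂ) s, ?_, ?_⟩
    · intro s s'
      rw [← mul_sub, norm_mul, hκ, one_mul, ← map_sub, RCLike.norm_conj]
    · intro s
      obtain ⟨p, hp, hps⟩ := hc s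
      refine ⟨p, hp, fun g hg => ?_⟩
      have := LinearMap.congr_fun hps ⟨g, hg⟩
      exact this

/-- The three by three determinant with columns `u, v, w`. -/
def dt3 {R : Type*} [CommRing R] (u v w : Fin 3 → R) : R :=
  u 0 * (v 1 * w 2 - v 2 * w 1) - u 1 * (v 0 * w 2 - v 2 * w 0) + u 2 * (v 0 * w 1 - v 1 * w 0)

/-- The functional `v ↦ det (u, v, w)` in the coordinates `h`. -/
noncomputable def gmid (h : Fin 3 → X →L[ℂ] ℂ) (u w : Fin 3 → ℂ) : X →L[ℂ] ℂ :=
  (u 2 * w 1 - u 1 * w 2) • h 0 + (u 0 * w 2 - u 2 * w 0) • h 1 + (u 1 * w 0 - u 0 * w 1) • h 2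

theorem gmid_apply (h : Fin 3 → X →L[ℂ] ℂ) (u w : Fin 3 → ℂ) (v : X) :
    gmid h u w v = dt3 u (fun i => h i v) w := by
  change (u 2 * w 1 - u 1 * w 2) * h 0 v + (u 0 * w 2 - u 2 * w 0) * h 1 v
    + (u 1 * w 0 - u 0 * w 1) * h 2 v = _
  unfold dt3
  ring

/-- The functional `w ↦ det (u, v, w)` in the coordinates `h`. -/
noncomputable def glast (h : Fin 3 → X →L[ℂ] ℂ) (u v : Fin 3 → ℂ) : X →L[ℂ] ℂ :=
  (u 1 * v 2 - u 2 * v 1) • h 0 + (u 2 * v 0 - u 0 * v 2) • h 1 + (u 0 * v 1 - u 1 * v 0) • h 2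

theorem glast_apply (h : Fin 3 → X →L[ℂ] ℂ) (u v : Fin 3 → ℂ) (w : X) :
    glast h u v w = dt3 u v (fun i => h i w) := by
  change (u 1 * v 2 - u 2 * v 1) * h 0 w + (u 2 * v 0 - u 0 * v 2) * h 1 w
    + (u 0 * v 1 - u 1 * v 0) * h 2 w = _
  unfold dt3
  ring

theorem dt3_self_left {R : Type*} [CommRing R] (u w : Fin 3 → R) : dt3 u u w = 0 := by
  unfold dt3
  ring

theorem dt3_self_right {R : Type*} [CommRing R] (u w : Fin 3 → R) : dt3 u w w = 0 := by
  unfold dt3
  ring

theorem dt3_self_outer {R : Type*} [CommRing R] (u w : Fin 3 → R) : dt3 u w u = 0 := by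
  unfold dt3
  ring

/-- The polynomial `det (a + t a', b + t b', c + t c')`. -/
noncomputable def dpoly (h : Fin 3 → X →L[ℂ] ℂ) (a a' b b' c c' : X) : Polynomial ℂ :=
  dt3 (fun i => Polynomial.C (h i a) + Polynomial.X * Polynomial.C (h i a'))
    (fun i => Polynomial.C (h i b) + Polynomial.X * Polynomial.C (h i b'))
    (fun i => Polynomial.C (h i c) + Polynomial.X * Polynomial.C (h i c'))

theorem dpoly_eval (h : Fin 3 → X →L[ℂ] ℂ) (a a' b b' c c' : X) (t : ℂ) :
    (dpoly h a a' b b' c c').eval t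
      = dt3 (fun i => h i (a + t • a')) (fun i => h i (b + t • b')) (fun i => h i (c + t • c')) := by
  simp [dpoly, dt3]
  ring

/-- CD2. -/
theorem cd_claim {A B : X →L[ℂ] X} {C : ℂ → (X →L[ℂ] X)}
    (h : ∀ (y : X) (g : X →L[ℂ] ℂ), g y = 0 → PhaseFam (g (A y)) (g (B y)) (fun s => g (C s y)))
    (h0 : ∃ y, LinearIndependent ℂ ![y, A y, B y]) :
    ∃ k : ℂ → ℂ, (∀ s s', ‖k s - k s'‖ = ‖s - s'‖) ∧
      ∀ s, ∃ p γ : ℂ, ‖p‖ = 1 ∧ C s = p • (A + k s • B) + γ • (1 : X →L[ℂ] X) := by
  obtain ⟨y0, hy0⟩ := h0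
  obtain ⟨k, hk, hkp⟩ := cd_pointwise h hy0
  refine ⟨k, hk, fun s => ?_⟩
  obtain ⟨p, hp, hps⟩ := hkp s
  refine ⟨p, ?_⟩
  -- dual functionals
  have hex : ∀ i : Fin 3, ∃ f : X →L[ℂ] ℂ, ∀ j, f (![y0, A y0, B y0] j) = if j = i then 1 else 0 :=
    fun i => exists_dual_fin hy0 (fun j => if j = i then 1 else 0)
  choose η hη using hex
  have e00 : η 0 y0 = 1 := by simpa using hη 0 0
  have e01 : η 0 (A y0) = 0 := by simpa using hη 0 1
  have e02 : η 0 (B y0) = 0 := by simpa using hη 0 2
  have e10 : η 1 y0 = 0 := by simpa using hη 1 0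
  have e11 : η 1 (A y0) = 1 := by simpa using hη 1 1
  have e12 : η 1 (B y0) = 0 := by simpa using hη 1 2
  have e20 : η 2 y0 = 0 := by simpa using hη 2 0
  have e21 : η 2 (A y0) = 0 := by simpa using hη 2 1
  have e22 : η 2 (B y0) = 1 := by simpa using hη 2 2
  -- the two norm identities
  have n1 : ∀ y, ‖dt3 (fun i => η i y) (fun i => η i (C s y)) (fun i => η i (B y))‖
      = ‖dt3 (fun i => η i y) (fun i => η i (A y)) (fun i => η i (B y))‖ := by
    intro y
    obtain ⟨a, b, h1, h2, h3⟩ := h y (gmid η (fun i => η i y) (fun i => η i (B y))) (by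
      rw [gmid_apply, dt3_self_left])
    rw [gmid_apply] at h1 h2
    rw [dt3_self_right, norm_zero] at h2
    have hb : b = 0 := norm_eq_zero.1 h2.symm
    have h4 := h3 s
    simp only at h4
    rw [gmid_apply, hb, mul_zero, add_zero] at h4
    rw [h4, h1]
  have n2 : ∀ y, ‖dt3 (fun i => η i y) (fun i => η i (A y)) (fun i => η i (C s y))‖
      = ‖s‖ * ‖dt3 (fun i => η i y) (fun i => η i (A y)) (fun i => η i (B y))‖ := by
    intro y
    obtain ⟨a, b, h1, h2, h3⟩ := h y (glast η (fun i => η i y) (fun i => η i (A y))) (by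
      rw [glast_apply, dt3_self_outer])
    rw [glast_apply] at h1 h2
    rw [dt3_self_right, norm_zero] at h1
    have ha : a = 0 := norm_eq_zero.1 h1.symm
    have h4 := h3 s
    simp only at h4
    rw [glast_apply, ha, zero_add, norm_mul] at h4
    rw [h4, h2]
  -- values at `y0`
  have hD0 : dt3 (fun i => η i y0) (fun i => η i (A y0)) (fun i => η i (B y0)) = 1 := by
    simp [dt3, e00, e01, e02, e10, e11, e12, e20, e21, e22]
  have hC1 : η 1 (C s y0) = p := by
    have := hps (η 1) e10
    rw [this, e11, e12, mul_zero, add_zero, mul_one]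
  have hC2 : η 2 (C s y0) = p * k s := by
    have := hps (η 2) e20
    rw [this, e21, e22, zero_add, mul_one]
  have hQ0 : dt3 (fun i => η i y0) (fun i => η i (C s y0)) (fun i => η i (B y0)) = p := by
    simp [dt3, e00, e02, e10, e12, e20, e22, hC1]
  have hR0 : dt3 (fun i => η i y0) (fun i => η i (A y0)) (fun i => η i (C s y0)) = p * k s := by
    simp [dt3, e00, e01, e10, e11, e20, e21, hC2]
  -- the identities for all vectors
  have I1 : ∀ y, dt3 (fun i => η i y) (fun i => η i (C s y)) (fun i => η i (B y))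
      = p * dt3 (fun i => η i y) (fun i => η i (A y)) (fun i => η i (B y)) := by
    intro y
    obtain ⟨c, hc, hcQ⟩ := poly_norm_eq
      (dpoly η y0 (y - y0) (A y0) (A (y - y0)) (B y0) (B (y - y0)))
      (dpoly η y0 (y - y0) (C s y0) (C s (y - y0)) (B y0) (B (y - y0))) (by
        intro t
        rw [dpoly_eval, dpoly_eval]
        have := n1 (y0 + t • (y - y0))
        rw [map_add A, map_smul A, map_add B, map_smul B, map_add (C s), map_smul (C s)] at this
        exact this.symm)
    have c0 := congrArg (Polynomial.eval 0) hcQ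
    rw [Polynomial.eval_mul, Polynomial.eval_C, dpoly_eval, dpoly_eval] at c0
    simp only [zero_smul, add_zero] at c0
    rw [hD0, hQ0, mul_one] at c0
    have c1 := congrArg (Polynomial.eval 1) hcQ
    rw [Polynomial.eval_mul, Polynomial.eval_C, dpoly_eval, dpoly_eval] at c1
    simp only [one_smul, ← map_add, add_sub_cancel] at c1
    rw [c1, c0]
  have I2 : ∀ y, dt3 (fun i => η i y) (fun i => η i (A y)) (fun i => η i (C s y))
      = p * k s * dt3 (fun i => η i y) (fun i => η i (A y)) (fun i => η i (B y)) := by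
    intro y
    obtain ⟨c, hc, hcQ⟩ := poly_norm_eq
      (Polynomial.C s * dpoly η y0 (y - y0) (A y0) (A (y - y0)) (B y0) (B (y - y0)))
      (dpoly η y0 (y - y0) (A y0) (A (y - y0)) (C s y0) (C s (y - y0))) (by
        intro t
        rw [Polynomial.eval_mul, Polynomial.eval_C, norm_mul, dpoly_eval, dpoly_eval]
        have := n2 (y0 + t • (y - y0))
        rw [map_add A, map_smul A, map_add B, map_smul B, map_add (C s), map_smul (C s)] at this
        exact this.symm)
    have c0 := congrArg (Polynomial.eval 0) hcQ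
    rw [Polynomial.eval_mul, Polynomial.eval_C, Polynomial.eval_mul, Polynomial.eval_C, dpoly_eval,
      dpoly_eval] at c0
    simp only [zero_smul, add_zero] at c0
    rw [hD0, hR0, mul_one] at c0
    have c1 := congrArg (Polynomial.eval 1) hcQ
    rw [Polynomial.eval_mul, Polynomial.eval_C, Polynomial.eval_mul, Polynomial.eval_C, dpoly_eval,
      dpoly_eval] at c1
    simp only [one_smul, ← map_add, add_sub_cancel] at c1
    rw [c1, c0]
    ring
  -- the difference
  set E : X →L[ℂ] X := C s - p • (A + k s • B) with hE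
  have hEy : ∀ y, E y = C s y - p • (A y + k s • B y) := fun y => rfl
  -- good vectors are eigenvectors
  have heig : ∀ y, dt3 (fun i => η i y) (fun i => η i (A y)) (fun i => η i (B y)) ≠ 0 →
      ∃ c : ℂ, E y = c • y := by
    intro y hD
    have hli : LinearIndependent ℂ ![y, A y, B y] := by
      rw [li3_iff]
      intro a b c habc
      have hi : ∀ i, a * η i y + b * η i (A y) + c * η i (B y) = 0 := by
        intro i
        have := congrArg (η i) habc
        simpa using this
      have h1 : a * dt3 (fun i => η i y) (fun i => η i (A y)) (fun i => η i (B y)) = 0 := by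
        have : a * dt3 (fun i => η i y) (fun i => η i (A y)) (fun i => η i (B y))
            = dt3 (fun i => a * η i y + b * η i (A y) + c * η i (B y)) (fun i => η i (A y))
              (fun i => η i (B y)) := by
          simp only [dt3]
          ring
        rw [this]
        simp [dt3, hi]
      have h2 : b * dt3 (fun i => η i y) (fun i => η i (A y)) (fun i => η i (B y)) = 0 := by
        have : b * dt3 (fun i => η i y) (fun i => η i (A y)) (fun i => η i (B y))
            = dt3 (fun i => η i y) (fun i => a * η i y + b * η i (A y) + c * η i (B y))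
              (fun i => η i (B y)) := by
          simp only [dt3]
          ring
        rw [this]
        simp [dt3, hi]
      have h3 : c * dt3 (fun i => η i y) (fun i => η i (A y)) (fun i => η i (B y)) = 0 := by
        have : c * dt3 (fun i => η i y) (fun i => η i (A y)) (fun i => η i (B y))
            = dt3 (fun i => η i y) (fun i => η i (A y))
              (fun i => a * η i y + b * η i (A y) + c * η i (B y)) := by
          simp only [dt3]
          ring
        rw [this]
        simp [dt3, hi]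
      exact ⟨(mul_eq_zero.1 h1).resolve_right hD, (mul_eq_zero.1 h2).resolve_right hD,
        (mul_eq_zero.1 h3).resolve_right hD⟩
    obtain ⟨k', -, hk'⟩ := cd_pointwise h hli
    obtain ⟨p', -, hp'⟩ := hk' s
    -- identify `p'`, `k'`
    have hD' := hD
    have g1 := hp' (gmid η (fun i => η i y) (fun i => η i (B y))) (by
      rw [gmid_apply, dt3_self_left])
    rw [gmid_apply, gmid_apply, gmid_apply, dt3_self_right, mul_zero, add_zero, I1] at g1
    have hpp : p = p' := mul_right_cancel₀ hD g1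
    have g2 := hp' (glast η (fun i => η i y) (fun i => η i (A y))) (by
      rw [glast_apply, dt3_self_outer])
    rw [glast_apply, glast_apply, glast_apply, dt3_self_right, zero_add, I2, ← mul_assoc] at g2
    have hkk : p * k s = p' * k' s := mul_right_cancel₀ hD g2
    -- `E y` is in the span of `y`
    by_contra hcon
    have hnot : E y ∉ Submodule.span ℂ (Set.range ![y]) := by
      intro hmem
      rw [Matrix.range_cons, Matrix.range_empty, Set.union_empty] at hmem
      obtain ⟨c, hc⟩ := Submodule.mem_span_singleton.1 hmem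
      exact hcon ⟨c, hc.symm⟩
    obtain ⟨f, hf0, hf1⟩ := exists_dual_sep hnot
    have hfy : f y = 0 := by simpa using hf0 0
    have hf2 := hp' f hfy
    rw [hEy, map_sub, map_smul, map_add, map_smul, hf2, ← hpp] at hf1
    rw [← hpp] at hkk
    simp only [smul_eq_mul] at hf1
    have : p * (f (A y) + k' s * f (B y)) - p * (f (A y) + k s * f (B y))
        = (p * k' s - p * k s) * f (B y) := by ring
    rw [this, ← hkk, sub_self, zero_mul] at hf1
    exact zero_ne_one hf1
  obtain ⟨γ, hγ⟩ := scalar_of_eigen E y0 (heig y0 (by rw [hD0]; exact one_ne_zero)) (by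
    intro z
    set P := dpoly η y0 z (A y0) (A z) (B y0) (B z) with hP
    have hP0 : P ≠ 0 := by
      intro h1
      have h2 := dpoly_eval η y0 z (A y0) (A z) (B y0) (B z) 0
      rw [← hP, h1, Polynomial.eval_zero] at h2
      simp only [zero_smul, add_zero] at h2
      rw [hD0] at h2
      exact zero_ne_one h2
    have hfin : ((P.roots.toFinset : Set ℂ) ∪ {0}).Finite :=
      (Finset.finite_toSet _).union (Set.finite_singleton 0)
    have hinf : (((P.roots.toFinset : Set ℂ) ∪ {0})ᶜ).Infinite := hfin.infinite_compl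
    obtain ⟨t1, ht1⟩ := hinf.nonempty
    obtain ⟨t2, ht2, ht12⟩ := hinf.exists_notMem_finset {t1}
    have hgood : ∀ t, t ∈ ((P.roots.toFinset : Set ℂ) ∪ {0})ᶜ → t ≠ 0 ∧
        ∃ c : ℂ, E (y0 + t • z) = c • (y0 + t • z) := by
      intro t ht
      have h1 : t ≠ 0 := fun h2 => ht (Or.inr (by rw [h2]; rfl))
      refine ⟨h1, heig _ ?_⟩
      intro h2
      apply ht
      left
      rw [Finset.mem_coe, Multiset.mem_toFinset, Polynomial.mem_roots hP0, Polynomial.IsRoot, hP,
        dpoly_eval]
      rw [map_add A, map_smul A, map_add B, map_smul B] at h2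
      exact h2
    refine ⟨t1, t2, (hgood t1 ht1).1, (hgood t2 ht2).1, ?_, (hgood t1 ht1).2, (hgood t2 ht2).2⟩
    intro h1
    exact ht12 (by simp [h1]))
  refine ⟨γ, hp, ?_⟩
  rw [← hγ, hE]
  abel

end cdtwo

end PR
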